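import Pool.Agent.Y138.RB.Space

set_option autoImplicit false

namespace Pool.Agent.Y138.RB

open Set SmoothRot Space Cardinal

/-- Scaling a tiling by disjoint balls. -/
theorem scale {X : Type} [NormedAddCommGroup X] [NormedSpace ℝ X] (T : Set (X × ℝ)) (r c : ℝ)
    (hc : 0 < c) (h1 : ∀ p ∈ T, 0 < p.2 ∧ p.2 ≤ r)
    (h2 : (⋃ p ∈ T, Metric.closedBall p.1 p.2) = Set.univ)
    (h3 : ∀ p ∈ T, ∀ q ∈ T, p ≠ q →
      Disjoint (Metric.closedBall p.1 p.2) (Metric.closedBall q.1 q.2)) :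
    ∃ T' : Set (X × ℝ), (∀ p ∈ T', 0 < p.2 ∧ p.2 ≤ c * r) ∧
      (⋃ p ∈ T', Metric.closedBall p.1 p.2) = Set.univ ∧
      ∀ p ∈ T', ∀ q ∈ T', p ≠ q →
        Disjoint (Metric.closedBall p.1 p.2) (Metric.closedBall q.1 q.2) := by
  have key : ∀ (y x : X) (s : ℝ), y ∈ Metric.closedBall (c • x) (c * s) ↔
      c⁻¹ • y ∈ Metric.closedBall x s := by
    intro y x s
    rw [Metric.mem_closedBall, Metric.mem_closedBall, dist_eq_norm, dist_eq_norm]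
    have e : y - c • x = c • (c⁻¹ • y - x) := by
      rw [smul_sub, smul_smul, mul_inv_cancel₀ hc.ne', one_smul]
    rw [e, norm_smul, Real.norm_eq_abs, abs_of_pos hc]
    exact mul_le_mul_iff_right₀ hc
  refine ⟨(fun p : X × ℝ => (c • p.1, c * p.2)) '' T, ?_, ?_, ?_⟩
  · rintro _ ⟨p, hp, rfl⟩
    obtain ⟨h4, h5⟩ := h1 p hp
    exact ⟨mul_pos hc h4, mul_le_mul_of_nonneg_left h5 hc.le⟩
  · refine eq_univ_of_forall fun y => ?_
    have hy : c⁻¹ • y ∈ ⋃ p ∈ T, Metric.closedBall p.1 p.2 := by rw [h2]; exact Set.mem_univ _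
    obtain ⟨p, hp, hyp⟩ := mem_iUnion₂.1 hy
    exact mem_iUnion₂.2 ⟨_, ⟨p, hp, rfl⟩, (key y p.1 p.2).2 hyp⟩
  · rintro _ ⟨p, hp, rfl⟩ _ ⟨q, hq, rfl⟩ hne
    have hpq : p ≠ q := fun h => hne (by rw [h])
    rw [Set.disjoint_left]
    intro z hz1 hz2
    exact Set.disjoint_left.1 (h3 p hp q hq hpq) ((key z p.1 p.2).1 hz1) ((key z q.1 q.2).1 hz2)

theorem exists_equiv (ι : Type) (hι : continuum ≤ #ι) : Nonempty (ι ≃ ℕ × (ι →₀ ℝ)) := by
  apply Cardinal.eq.1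
  have h0 : ℵ₀ ≤ #ι := aleph0_le_continuum.trans hι
  have : Infinite ι := infinite_iff.2 h0
  rw [Cardinal.mk_prod, Cardinal.lift_id, Cardinal.lift_id, Cardinal.mk_finsupp_of_infinite,
    Cardinal.mk_nat, Cardinal.mk_real, max_eq_left hι, Cardinal.aleph0_mul_eq h0]

theorem mk_space (ι : Type) (hι : continuum ≤ #ι) (E : ι ≃ ℕ × (ι →₀ ℝ)) : #(RX E) = #ι := by
  have h0 : ℵ₀ ≤ #ι := aleph0_le_continuum.trans hι
  have : Infinite ι := infinite_iff.2 h0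
  show #(ι →₀ ℝ) = #ι
  rw [Cardinal.mk_finsupp_of_infinite, Cardinal.mk_real, max_eq_left hι]

theorem density {ι : Type} (E : ι ≃ ℕ × (ι →₀ ℝ)) (S : Set (RX E)) (hS : Dense S) : #ι ≤ #S := by
  have hex : ∀ γ : ι, ∃ s : S, ‖(s : RX E) - bas E γ‖ < 1 / 2 := by
    intro γ
    obtain ⟨s, hs, hd⟩ := Metric.dense_iff.1 hS (bas E γ) (1 / 2) (by norm_num)
    rw [Metric.mem_ball, dist_eq_norm] at hs
    exact ⟨⟨s, hd⟩, hs⟩
  choose s hs using hex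
  refine Cardinal.mk_le_of_injective (f := s) fun γ η h => ?_
  by_contra hne
  have h1 := hs γ
  have h2 := hs η
  rw [← h] at h2
  have h3 : ‖bas E γ - bas E η‖ < 1 := by
    have e : bas E γ - bas E η = ((s γ : RX E) - bas E η) - ((s γ : RX E) - bas E γ) := by abel
    rw [e]
    refine (norm_sub_le _ _).trans_lt ?_
    linarith
  have h4 : Real.sqrt (q (Finsupp.single γ (1 : ℝ) - Finsupp.single η (1 : ℝ) : ι →₀ ℝ)) ≤
      ‖bas E γ - bas E η‖ := sqrt_q_le (eps E) eps_pos _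
  have h5 := two_le_q (Finsupp.single γ (1 : ℝ) - Finsupp.single η (1 : ℝ) : ι →₀ ℝ) hne
  have h6 : (Finsupp.single γ (1 : ℝ) - Finsupp.single η (1 : ℝ) : ι →₀ ℝ) γ = 1 := by
    simp [Ne.symm hne]
  have h7 : (Finsupp.single γ (1 : ℝ) - Finsupp.single η (1 : ℝ) : ι →₀ ℝ) η = -1 := by
    simp [hne]
  rw [h6, h7] at h5
  have h8 : (1 : ℝ) ≤ Real.sqrt (q (Finsupp.single γ (1 : ℝ) - Finsupp.single η (1 : ℝ))) := by
    apply Real.le_sqrt_of_sq_le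
    linarith
  linarith

end Pool.Agent.Y138.RB
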