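import Mathlib
import Pool.Agent.Y138.RB.TilingCore
import Pool.Agent.Y138.RB.SmoothRot

set_option autoImplicit false
set_option linter.unusedSectionVars false
set_option linter.style.haveILetI false

/-!
The normed space: finitely supported real functions on the reals, with the norm of `SmoothRot`
for a parameter adapted to an enumeration.
-/

namespace Pool.Agent.Y138.RB.Space

open Filter Topology Set SmoothRot

variable {ι : Type} {E0 : ι ≃ ℕ × (ι →₀ ℝ)}

/-- the parameter -/
noncomputable def eps (E : ι ≃ ℕ × (ι →₀ ℝ)) (γ η : ι) : ℝ :=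
  open Classical in
  if (E γ).2 = (E η).2 then 1 else q ((E γ).2 - (E η).2)

lemma eps_pos (γ η : ι) : 0 < eps E0 γ η := by
  unfold eps
  split_ifs with h
  · exact one_pos
  · exact q_pos (sub_ne_zero.2 h)

/-- the space -/
def RX (_E : ι ≃ ℕ × (ι →₀ ℝ)) : Type := ι →₀ ℝ

noncomputable instance : AddCommGroup (RX E0) := inferInstanceAs (AddCommGroup (ι →₀ ℝ))
noncomputable instance : Module ℝ (RX E0) := inferInstanceAs (Module ℝ (ι →₀ ℝ))

noncomputable instance : Norm (RX E0) := ⟨fun v => N (eps E0) v⟩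

lemma norm_def (v : (RX E0)) : ‖v‖ = N (eps E0) v := rfl

lemma core : NormedSpace.Core ℝ (RX E0) where
  norm_nonneg v := N_nonneg (eps E0) v
  norm_smul c v := N_smul (eps E0) eps_pos c v
  norm_triangle v w := N_add (eps E0) eps_pos v w
  norm_eq_zero_iff v := by
    constructor
    · intro h
      by_contra hv
      have h1 := sqrt_q_le (eps E0) eps_pos v
      rw [norm_def] at h
      rw [h] at h1
      have h2 := Real.sqrt_pos.2 (q_pos hv)
      linarith
    · rintro rfl
      rw [norm_def]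
      have := N_smul (eps E0) eps_pos 0 (0 : ι →₀ ℝ)
      rw [zero_smul, abs_zero, zero_mul] at this
      exact this

noncomputable instance : NormedAddCommGroup (RX E0) := NormedAddCommGroup.ofCore core
noncomputable instance : NormedSpace ℝ (RX E0) := NormedSpace.ofCore core

/-- the coordinate basis -/
noncomputable def bas (E : ι ≃ ℕ × (ι →₀ ℝ)) : Module.Basis ι ℝ (RX E) :=
  ⟨LinearEquiv.refl ℝ (ι →₀ ℝ)⟩

lemma bas_apply (γ : ι) : ((bas E0) γ : ι →₀ ℝ) = Finsupp.single γ 1 := rfl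

/-- the underlying function -/
def toF (v : (RX E0)) : ι →₀ ℝ := v

lemma repr_apply (v : (RX E0)) (γ : ι) : (bas E0).repr v γ = toF v γ := rfl

lemma q_single (γ : ι) (a : ℝ) : q (Finsupp.single γ a) = a ^ 2 := by
  rw [q_eq _ {γ} Finsupp.support_single_subset]
  simp

lemma norm_bas (γ : ι) : ‖(bas E0) γ‖ = 1 := by
  rw [norm_def, bas_apply]
  apply le_antisymm
  · apply N_le_of_mem (eps E0) one_pos
    rw [inv_one, one_smul, mem_B_iff (eps E0) eps_pos (S := {γ}) Finsupp.support_single_subset]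
    unfold Ph
    rw [q_single, Finset.offDiag_singleton, Finset.sum_empty]
    norm_num
  · have := sqrt_q_le (eps E0) eps_pos (Finsupp.single γ 1)
    rwa [q_single, one_pow, Real.sqrt_one] at this


lemma rotund (x y : (RX E0)) (hx : ‖x‖ = 1) (hy : ‖y‖ = 1) (hxy : x ≠ y) :
    ‖(1 / 2 : ℝ) • (x + y)‖ < 1 := by
  classical
  rw [norm_def] at hx hy ⊢
  let v : ι →₀ ℝ := x
  let w : ι →₀ ℝ := y
  change N (eps E0) ((1 / 2 : ℝ) • (v + w)) < 1
  have hvw : v - w ≠ 0 := sub_ne_zero.2 hxy
  have h1 : v.support ⊆ v.support ∪ w.support := Finset.subset_union_left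
  have h2 : w.support ⊆ v.support ∪ w.support := Finset.subset_union_right
  have h3 : ((1 / 2 : ℝ) • v + (1 / 2 : ℝ) • w).support ⊆ v.support ∪ w.support :=
    Finsupp.support_add.trans
      (Finset.union_subset_union Finsupp.support_smul Finsupp.support_smul)
  have h4 := Ph_combo (eps E0) eps_pos (v.support ∪ w.support) v w (a := 1 / 2) (b := 1 / 2)
    (by norm_num) (by norm_num) (by norm_num)
  have h5 := Ph_le_one_of_N_le (eps E0) eps_pos (v := v) hx.le h1
  have h6 := Ph_le_one_of_N_le (eps E0) eps_pos (v := w) hy.le h2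
  have h7 := q_pos hvw
  rw [smul_add]
  exact N_lt_one (eps E0) eps_pos h3 (by linarith)

lemma smooth_unique (x : (RX E0)) (hx : ‖x‖ = 1) (f g : StrongDual ℝ (RX E0)) (hf : ‖f‖ = 1)
    (hg : ‖g‖ = 1) (hfx : f x = 1) (hgx : g x = 1) : f = g := by
  have hfle : ∀ y : (RX E0), f y ≤ ‖y‖ := fun y => by
    have := f.le_opNorm y
    rw [hf, one_mul, Real.norm_eq_abs] at this
    exact (le_abs_self _).trans this
  have hgle : ∀ y : (RX E0), g y ≤ ‖y‖ := fun y => by
    have := g.le_opNorm y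
    rw [hg, one_mul, Real.norm_eq_abs] at this
    exact (le_abs_self _).trans this
  -- the key impossibility
  have key : ∀ d : (RX E0), f d = 0 → 0 < g d → False := by
    intro d hd hgd
    refine smooth_aux (eps E0) eps_pos (v := x) (d := d) hx (fun s => ?_) hgd fun s => ?_
    · have := hfle (x + s • d)
      rw [map_add, map_smul, hd, smul_zero, add_zero, hfx] at this
      exact this
    · have := hgle (x + s • d)
      rw [map_add, map_smul, hgx, smul_eq_mul] at this
      exact this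
  ext d
  by_contra hne
  have h0 : f (d - f d • x) = 0 := by
    rw [map_sub, map_smul, hfx, smul_eq_mul, mul_one, sub_self]
  have h1 : g (d - f d • x) = g d - f d := by
    rw [map_sub, map_smul, hgx, smul_eq_mul, mul_one]
  rcases lt_trichotomy (f d) (g d) with h | h | h
  · exact key _ h0 (by rw [h1]; linarith)
  · exact hne h
  · exact key (-(d - f d • x)) (by rw [map_neg, h0, neg_zero]) (by rw [map_neg, h1]; linarith)

lemma smooth (x : (RX E0)) (hx : ‖x‖ = 1) : ∃! f : StrongDual ℝ (RX E0), ‖f‖ = 1 ∧ f x = 1 := by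
  have hx0 : x ≠ 0 := by rintro rfl; rw [norm_zero] at hx; exact zero_ne_one hx
  obtain ⟨f, hf, hfx⟩ := exists_dual_vector ℝ x (by rw [hx]; exact one_ne_zero)
  have hfx' : f x = 1 := by
    rw [hfx, hx]; rfl
  exact ⟨f, ⟨hf, hfx'⟩, fun g hg => smooth_unique x hx g f hg.1 hf hg.2 hfx'⟩

lemma sep_far (s : ℝ) (hs : 0 < s) : ∃ ε > 0, ∀ (w : (RX E0)) (ζ η : ι) (t : ℝ), ζ ≠ η →
    s ≤ |(bas E0).repr w ζ| → (bas E0).repr w η = 0 → 0 < t → t ≤ 1 / 8 → t + ε ≤ ‖w - t • (bas E0) η‖ := by
  refine ⟨s ^ 2 / (1 + 2 * s), by positivity, fun w ζ η t hne hζ hη ht ht' => ?_⟩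
  set e := s ^ 2 / (1 + 2 * s) with he
  have he0 : 0 < e := by positivity
  have hes : e ≤ s / 2 := by
    rw [he, div_le_iff₀ (by positivity)]
    nlinarith
  have he1 : e * (1 + 2 * s) = s ^ 2 := by
    rw [he]; field_simp
  rw [norm_def]
  let v : ι →₀ ℝ := w
  change t + e ≤ N (eps E0) (v - t • Finsupp.single η (1 : ℝ))
  change s ≤ |v ζ| at hζ
  change v η = 0 at hη
  refine le_trans ?_ (sqrt_q_le (eps E0) eps_pos _)
  apply Real.le_sqrt_of_sq_le
  refine le_trans ?_ (two_le_q _ hne)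
  have h1 : (v - t • Finsupp.single η (1 : ℝ)) ζ = v ζ := by
    simp [Ne.symm hne]
  have h2 : (v - t • Finsupp.single η (1 : ℝ)) η = -t := by
    simp [hη]
  rw [h1, h2]
  have h3 : s ^ 2 ≤ v ζ ^ 2 := by
    rw [← sq_abs (v ζ)]
    exact pow_le_pow_left₀ hs.le hζ 2
  nlinarith

lemma sep_near (γ η : ι) (t t' : ℝ) (hne : γ ≠ η)
    (hlev : TilingCore.lev E0 γ = TilingCore.lev E0 η)
    (hγ : (bas E0).repr (TilingCore.pt (X := (RX E0)) E0 γ - TilingCore.pt (X := (RX E0)) E0 η) γ = 0)
    (hη : (bas E0).repr (TilingCore.pt (X := (RX E0)) E0 γ - TilingCore.pt (X := (RX E0)) E0 η) η = 0)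
    (ht : 0 < t) (ht8 : t ≤ 1 / 8) (ht' : 0 < t') (ht8' : t' ≤ 1 / 8) :
    t + t' < ‖(TilingCore.pt (X := (RX E0)) E0 γ - TilingCore.pt (X := (RX E0)) E0 η) + t • (bas E0) γ -
      t' • (bas E0) η‖ := by
  classical
  rw [repr_apply] at hγ hη
  rw [norm_def]
  set u : ι →₀ ℝ := (E0 γ).2 - (E0 η).2 with hu
  change u γ = 0 at hγ
  change u η = 0 at hη
  change t + t' < N (eps E0) (u + t • Finsupp.single γ (1 : ℝ) - t' • Finsupp.single η (1 : ℝ))
  have hpt : (E0 γ).2 ≠ (E0 η).2 := by
    intro h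
    apply hne
    apply E0.injective
    exact Prod.ext hlev h
  have hu0 : u ≠ 0 := sub_ne_zero.2 hpt
  have hqu := q_pos hu0
  have heps : eps E0 γ η = q u := by
    unfold eps
    rw [if_neg hpt]
  set v := u + t • Finsupp.single γ (1 : ℝ) - t' • Finsupp.single η (1 : ℝ) with hv
  have hvγ : v γ = t := by
    simp [hv, hγ, Ne.symm hne]
  have hvη : v η = -t' := by
    simp [hv, hη, hne]
  have hqv : q v - v γ ^ 2 - v η ^ 2 = q u := by
    have h1 : v.support ⊆ insert γ (insert η u.support) := by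
      intro i hi
      rw [Finsupp.mem_support_iff] at hi
      by_contra hcon
      simp only [Finset.mem_insert, not_or, Finsupp.mem_support_iff, not_not] at hcon
      obtain ⟨h2, h3, h4⟩ := hcon
      apply hi
      simp [hv, h4, Ne.symm h2, Ne.symm h3]
    have h2 : u.support ⊆ insert γ (insert η u.support) :=
      (Finset.subset_insert _ _).trans (Finset.subset_insert _ _)
    have hη' : η ∉ u.support := by rw [Finsupp.notMem_support_iff]; exact hη
    have hγ' : γ ∉ insert η u.support := by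
      rw [Finset.mem_insert, not_or, Finsupp.notMem_support_iff]
      exact ⟨hne, hγ⟩
    rw [q_eq _ _ h1, q_eq _ _ h2, Finset.sum_insert hγ', Finset.sum_insert hη',
      Finset.sum_insert hγ', Finset.sum_insert hη', hγ, hη]
    have h3 : ∑ i ∈ u.support, v i ^ 2 = ∑ i ∈ u.support, u i ^ 2 := by
      refine Finset.sum_congr rfl fun i hi => ?_
      have h4 : i ≠ η := fun h => hη' (h ▸ hi)
      have h5 : i ≠ γ := fun h => hγ' (Finset.mem_insert_of_mem (h ▸ hi))
      simp [hv, Ne.symm h4, Ne.symm h5]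
    rw [h3]
    ring
  by_contra hcon
  push Not at hcon
  have htt : 0 < t + t' := by linarith
  -- every slightly larger radius
  have key : ∀ r : ℝ, t + t' < r → (t + t') * r + q u / 2 ≤ r ^ 2 * (1 + 2 * q u) := by
    intro r hr
    have hr0 : 0 < r := htt.trans hr
    have hmem := mem_of_N_lt (eps E0) eps_pos (hcon.trans_lt hr)
    have hsup : (r⁻¹ • v).support ⊆ v.support := Finsupp.support_smul
    rw [mem_B_iff (eps E0) eps_pos hsup] at hmem
    have h1 : (γ, η) ∈ v.support.offDiag := by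
      rw [Finset.mem_offDiag, Finsupp.mem_support_iff, Finsupp.mem_support_iff]
      refine ⟨?_, ?_, hne⟩
      · simp only [hvγ]; exact ht.ne'
      · simp only [hvη]; exact neg_ne_zero.2 ht'.ne'
    have h2 : th (eps E0 γ η) (Psi γ η (r⁻¹ • v)) ≤ 1 := by
      have h3 := Finset.single_le_sum
        (f := fun P : ι × ι => th (eps E0 P.1 P.2) (Psi P.1 P.2 (r⁻¹ • v)))
        (fun _ _ => th_nonneg _ _) h1
      have h4 := q_nonneg (r⁻¹ • v)
      unfold Ph at hmem
      simp only at h3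
      linarith
    have h3 := th_le_one (eps_pos γ η) h2
    rw [Psi_smul, hqv, hvγ, hvη, heps, abs_neg, abs_of_pos ht, abs_of_pos ht',
      abs_of_pos (inv_pos.2 hr0)] at h3
    have h4 : r ^ 2 * (r⁻¹ * (t + t') + r⁻¹ ^ 2 * (q u / 2)) ≤ r ^ 2 * (1 + 2 * q u) :=
      mul_le_mul_of_nonneg_left h3 (by positivity)
    have h5 : r ^ 2 * (r⁻¹ * (t + t') + r⁻¹ ^ 2 * (q u / 2)) = (t + t') * r + q u / 2 := by
      field_simp
    rw [h5] at h4
    exact h4
  have hlim : (t + t') * (t + t') + q u / 2 ≤ (t + t') ^ 2 * (1 + 2 * q u) := by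
    have h1 : Tendsto (fun r : ℝ => (t + t') * r + q u / 2) (𝓝[>] (t + t'))
        (𝓝 ((t + t') * (t + t') + q u / 2)) :=
      ((continuous_const.mul continuous_id).add continuous_const).tendsto _ |>.mono_left
        nhdsWithin_le_nhds
    have h2 : Tendsto (fun r : ℝ => r ^ 2 * (1 + 2 * q u)) (𝓝[>] (t + t'))
        (𝓝 ((t + t') ^ 2 * (1 + 2 * q u))) :=
      ((continuous_id.pow 2).mul continuous_const).tendsto _ |>.mono_left nhdsWithin_le_nhds
    refine le_of_tendsto_of_tendsto h1 h2 ?_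
    filter_upwards [self_mem_nhdsWithin] with r hr
    exact key r hr
  have h16 : (t + t') ^ 2 ≤ 1 / 16 := by nlinarith
  nlinarith [mul_le_mul_of_nonneg_right h16 hqu.le]

theorem main : ∃ T : Set ((RX E0) × ℝ), (∀ p ∈ T, 0 < p.2 ∧ p.2 ≤ 1 / 8) ∧
    (⋃ p ∈ T, Metric.closedBall p.1 p.2) = univ ∧
    ∀ p ∈ T, ∀ q ∈ T, p ≠ q →
      Disjoint (Metric.closedBall p.1 p.2) (Metric.closedBall q.1 q.2) :=
  TilingCore.tiling (bas E0) E0 norm_bas sep_far sep_near

end Pool.Agent.Y138.RB.Space
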